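import Mathlib

set_option autoImplicit false

/-!
# Nonzero lowering maps on polynomials of bounded degree

For every field `K`, every `d ≥ 1` and every sequence `θ 0, …, θ d` of pairwise distinct elements of
`K` such that the ratio `(θ (i - 2) - θ (i + 1)) (θ (i - 1) - θ i)⁻¹` does not depend on
`2 ≤ i ≤ d - 1`, there is a nonzero lowering map on the space of the polynomials of degree at
most `d`.

The map sends `f` to the polynomial whose value at `θ j` is
`A j (f (θ (j + 1)) - f (θ j)) + C j (f (θ (j - 1)) - f (θ j))` for suitable scalars `A j`, `C j` with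
`A d = 0` and `C 0 = 0`.
-/

namespace Pool.Agent.Results.MP_87e037_al.LoweringMap

open Polynomial Finset

variable {K : Type*} [Field K]

/-- the polynomials `τ_i = (λ - θ_0) ⋯ (λ - θ_{i-1})` -/
noncomputable def tau (θ : ℕ → K) (i : ℕ) : K[X] := ∏ h ∈ range i, (X - C (θ h))

/-- the polynomials `ρ_i = (λ - θ_d) ⋯ (λ - θ_{d-i+1})` -/
noncomputable def rho (θ : ℕ → K) (d i : ℕ) : K[X] := ∏ h ∈ range i, (X - C (θ (d - h)))

/-- the space of the polynomials of degree at most `d` -/
noncomputable abbrev V (K : Type*) [Field K] (d : ℕ) : Submodule K K[X] := degreeLE K (d : WithBot ℕ)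

theorem natDegree_prod_le {n : ℕ} (x : ℕ → K) :
    (∏ h ∈ range n, (X - C (x h))).natDegree = n := by
  rw [natDegree_prod_of_monic _ _ fun h _ => monic_X_sub_C _]
  simp

theorem mem_V {d : ℕ} {p : K[X]} (hp : p.natDegree ≤ d) : p ∈ V K d :=
  mem_degreeLE.2 (natDegree_le_iff_degree_le.1 hp)

/-- `τ_i` as an element of the space -/
noncomputable def tauV (θ : ℕ → K) (d i : ℕ) (hi : i ≤ d) : V K d :=
  ⟨tau θ i, mem_V (by rw [tau, natDegree_prod_le]; exact hi)⟩

/-- `ρ_i` as an element of the space -/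
noncomputable def rhoV (θ : ℕ → K) (d i : ℕ) (hi : i ≤ d) : V K d :=
  ⟨rho θ d i, mem_V (by rw [rho, natDegree_prod_le fun h => θ (d - h)]; exact hi)⟩

/-- lowering maps -/
structure IsLowering (θ : ℕ → K) (d : ℕ) (Ψ : V K d →ₗ[K] V K d) : Prop where
  tau_zero : Ψ (tauV θ d 0 (Nat.zero_le d)) = 0
  rho_zero : Ψ (rhoV θ d 0 (Nat.zero_le d)) = 0
  tau_succ : ∀ (i : ℕ) (hi : i + 1 ≤ d),
    Ψ (tauV θ d (i + 1) hi) ∈ Submodule.span K {tauV θ d i (Nat.le_of_succ_le hi)}
  rho_succ : ∀ (i : ℕ) (hi : i + 1 ≤ d),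
    Ψ (rhoV θ d (i + 1) hi) ∈ Submodule.span K {rhoV θ d i (Nat.le_of_succ_le hi)}

/-- condition (*) -/
def Star (θ : ℕ → K) (d : ℕ) : Prop :=
  ∀ i j : ℕ, 2 ≤ i → i + 1 ≤ d → 2 ≤ j → j + 1 ≤ d →
    (θ (i - 2) - θ (i + 1)) * (θ (i - 1) - θ i)⁻¹ = (θ (j - 2) - θ (j + 1)) * (θ (j - 1) - θ j)⁻¹

/-! ### interpolation -/

theorem eq_C_mul_prod {n : ℕ} {x : ℕ → K} {p : K[X]} (hp : p.natDegree ≤ n)
    (hx : ∀ i < n, ∀ j < n, x i = x j → i = j) (h0 : ∀ i < n, p.eval (x i) = 0) :
    p = C (p.coeff n) * ∏ h ∈ range n, (X - C (x h)) := by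
  classical
  rw [← sub_eq_zero]
  set q := p - C (p.coeff n) * ∏ h ∈ range n, (X - C (x h)) with hq
  have hmon : (∏ h ∈ range n, (X - C (x h))).Monic := monic_prod_of_monic _ _ fun h _ =>
    monic_X_sub_C _
  have hdeg : q.degree < n := by
    rw [degree_lt_iff_coeff_zero]
    intro m hm
    rw [hq, coeff_sub, coeff_C_mul]
    rcases hm.eq_or_lt with rfl | hm
    · have h1 : (∏ h ∈ range n, (X - C (x h))).coeff n = 1 := by
        have h2 := hmon.coeff_natDegree
        rwa [natDegree_prod_le] at h2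
      rw [h1, mul_one, sub_self]
    · have h1 : p.coeff m = 0 := coeff_eq_zero_of_natDegree_lt (lt_of_le_of_lt hp hm)
      have h2 : (∏ h ∈ range n, (X - C (x h))).coeff m = 0 :=
        coeff_eq_zero_of_natDegree_lt (by rw [natDegree_prod_le]; exact hm)
      rw [h1, h2, mul_zero, sub_zero]
  refine eq_zero_of_degree_lt_of_eval_finset_eq_zero ((range n).image x) ?_ ?_
  · rw [card_image_of_injOn]
    · rwa [card_range]
    · intro i hi j hj hij
      exact hx i (by simpa using hi) j (by simpa using hj) hij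
  · intro y hy
    obtain ⟨i, hi, rfl⟩ := mem_image.1 hy
    rw [mem_range] at hi
    rw [hq, eval_sub, h0 i hi, eval_mul, eval_prod, prod_eq_zero (mem_range.2 hi)]
    · simp
    · simp

/-! ### the operator -/

section operator

variable (β γ ω c a b : K)

/-- the auxiliary polynomials -/
noncomputable def S : ℕ → K[X]
  | 0 => C c
  | 1 => C a * X + C b
  | (k + 2) => (C β * X + C γ) * S (k + 1) - (X ^ 2 - C γ * X - C ω) * S k

theorem natDegree_S_le (k : ℕ) : (S β γ ω c a b k).natDegree ≤ k := by
  induction k using Nat.strong_induction_on with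
  | _ k ih =>
    match k with
    | 0 => simp [S]
    | 1 => rw [S]; compute_degree
    | (k + 2) =>
      rw [S]
      have h1 := ih (k + 1) (by omega)
      have h2 := ih k (by omega)
      have h3 : (C β * X + C γ : K[X]).natDegree ≤ 1 := by compute_degree
      have h4 : (X ^ 2 - C γ * X - C ω : K[X]).natDegree ≤ 2 := by compute_degree
      refine (natDegree_sub_le _ _).trans (max_le ?_ ?_)
      · exact natDegree_mul_le.trans (by omega)
      · exact natDegree_mul_le.trans (by omega)

/-- the images of the powers -/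
noncomputable def T (n : ℕ) : K[X] := ∑ k ∈ range n, X ^ (n - 1 - k) * S β γ ω c a b k

theorem natDegree_T_le (n : ℕ) : (T β γ ω c a b n).natDegree ≤ n - 1 := by
  rw [T]
  refine natDegree_sum_le_of_forall_le _ _ fun k hk => ?_
  rw [mem_range] at hk
  have h1 := natDegree_S_le β γ ω c a b k
  refine natDegree_mul_le.trans ?_
  rw [natDegree_X_pow]
  omega

/-- the operator -/
noncomputable def Φ : K[X] →ₗ[K] K[X] :=
  lsum fun n => LinearMap.toSpanSingleton K K[X] (T β γ ω c a b n)

theorem Φ_apply (f : K[X]) :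
    Φ β γ ω c a b f = ∑ n ∈ f.support, f.coeff n • T β γ ω c a b n := by
  rw [Φ, lsum_apply, Polynomial.sum]
  rfl

theorem Φ_X_pow (n : ℕ) : Φ β γ ω c a b (X ^ n) = T β γ ω c a b n := by
  rw [Φ, lsum_apply, ← monomial_one_right_eq_X_pow, sum_monomial_index]
  · simp
  · simp

theorem natDegree_Φ_le {f : K[X]} {n : ℕ} (hf : f.natDegree ≤ n) :
    (Φ β γ ω c a b f).natDegree ≤ n - 1 := by
  rw [Φ_apply]
  refine natDegree_sum_le_of_forall_le _ _ fun k hk => ?_
  refine (natDegree_smul_le _ _).trans ((natDegree_T_le β γ ω c a b k).trans ?_)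
  have := le_natDegree_of_mem_supp k hk
  omega

/-- the value of the operator, in terms of two roots of a quadratic polynomial -/
theorem eval_Φ {x y z p r : K} (hy : y ^ 2 = (β * x + γ) * y - (x ^ 2 - γ * x - ω) ∨ p = 0)
    (hz : z ^ 2 = (β * x + γ) * z - (x ^ 2 - γ * x - ω) ∨ r = 0) (h0 : p * (y - x) + r * (z - x) = c)
    (h1 : p * (y - x) * y + r * (z - x) * z = a * x + b) (f : K[X]) :
    (Φ β γ ω c a b f).eval x = p * (f.eval y - f.eval x) + r * (f.eval z - f.eval x) := by
  -- the values of the auxiliary polynomials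
  have hS : ∀ k, (S β γ ω c a b k).eval x = p * (y - x) * y ^ k + r * (z - x) * z ^ k := by
    intro k
    induction k using Nat.strong_induction_on with
    | _ k ih =>
      match k with
      | 0 => rw [S, eval_C, ← h0]; ring
      | 1 => rw [S]; simp only [eval_add, eval_mul, eval_C, eval_X]; rw [← h1]; ring
      | (k + 2) =>
        rw [S]
        simp only [eval_sub, eval_add, eval_mul, eval_C, eval_X, eval_pow]
        rw [ih (k + 1) (by omega), ih k (by omega)]
        have e1 : p * (y ^ 2 - ((β * x + γ) * y - (x ^ 2 - γ * x - ω))) = 0 := by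
          rcases hy with h | h
          · rw [h]; ring
          · rw [h]; ring
        have e2 : r * (z ^ 2 - ((β * x + γ) * z - (x ^ 2 - γ * x - ω))) = 0 := by
          rcases hz with h | h
          · rw [h]; ring
          · rw [h]; ring
        linear_combination (-(y - x) * y ^ k) * e1 - ((z - x) * z ^ k) * e2
  have hgeom : ∀ (y : K) (n : ℕ), (y - x) * ∑ k ∈ range n, x ^ (n - 1 - k) * y ^ k =
      y ^ n - x ^ n := by
    intro y n
    have h2 := Commute.geom_sum₂_mul (Commute.all y x) n
    rw [← h2, mul_comm]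
    congr 1
    exact sum_congr rfl fun k _ => mul_comm _ _
  have hT : ∀ n, (T β γ ω c a b n).eval x = p * (y ^ n - x ^ n) + r * (z ^ n - x ^ n) := by
    intro n
    rw [T, eval_finsetSum, ← hgeom y n, ← hgeom z n, mul_sum, mul_sum, mul_sum, mul_sum,
      ← sum_add_distrib]
    refine sum_congr rfl fun k _ => ?_
    rw [eval_mul, eval_pow, eval_X, hS]
    ring
  induction f using Polynomial.induction_on' with
  | add f g hf hg =>
    rw [map_add, eval_add, hf, hg, eval_add, eval_add, eval_add]; ring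
  | monomial n u =>
    rw [← C_mul_X_pow_eq_monomial, ← smul_eq_C_mul, map_smul, Φ_X_pow, eval_smul, hT]
    simp only [eval_smul, eval_pow, eval_X, smul_eq_mul]
    ring

end operator

/-- **The recurrence.** Condition (*) gives a three-term recurrence. -/
theorem exists_recurrence {θ : ℕ → K} {d : ℕ}
    (hθ : ∀ i j : ℕ, i ≤ d → j ≤ d → θ i = θ j → i = j) (hstar : Star θ d) :
    ∃ β γ : K, ∀ j, 1 ≤ j → j + 1 ≤ d → θ (j - 1) + θ (j + 1) = β * θ j + γ := by
  by_cases hd : 3 ≤ d
  · set κ := (θ 0 - θ 3) * (θ 1 - θ 2)⁻¹ with hκ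
    refine ⟨κ - 1, θ 0 + θ 2 - (κ - 1) * θ 1, fun j hj hjd => ?_⟩
    induction j with
    | zero => omega
    | succ j ih =>
      rcases Nat.eq_zero_or_pos j with rfl | hj0
      · simp
      · have h1 := ih hj0 (by omega)
        have h2 := hstar (j + 1) 2 (by omega) hjd (by omega) (by omega)
        have e1 : j + 1 - 2 = j - 1 := by omega
        have e2 : j + 1 - 1 = j := by omega
        rw [e1, e2] at h2
        have h3 : (θ (j - 1) - θ (j + 1 + 1)) * (θ j - θ (j + 1))⁻¹ = κ := h2
        have h4 : θ j - θ (j + 1) ≠ 0 := by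
          intro h
          have := hθ j (j + 1) (by omega) (by omega) (sub_eq_zero.1 h)
          omega
        have h5 : θ (j - 1) - θ (j + 1 + 1) = κ * (θ j - θ (j + 1)) := by
          rw [← h3, mul_assoc, inv_mul_cancel₀ h4, mul_one]
        rw [e2]
        linear_combination h1 - h5
  · refine ⟨0, θ 0 + θ 2, fun j hj hjd => ?_⟩
    have : j = 1 := by omega
    subst this
    simp

/-- **The main theorem.** -/
theorem result {K : Type*} [Field K] (d : ℕ) (hd : 1 ≤ d) (θ : ℕ → K)
    (hθ : ∀ i j : ℕ, i ≤ d → j ≤ d → θ i = θ j → i = j) (hstar : Star θ d) :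
    ∃ Ψ : V K d →ₗ[K] V K d, Ψ ≠ 0 ∧ IsLowering θ d Ψ := by
  obtain ⟨β, γ, hrec⟩ := exists_recurrence hθ hstar
  have hne : ∀ i j : ℕ, i ≤ d → j ≤ d → i ≠ j → θ i - θ j ≠ 0 := fun i j hi hj hij h =>
    hij (hθ i j hi hj (sub_eq_zero.1 h))
  -- the invariant
  set ω : K := θ 1 ^ 2 - β * θ 1 * θ 0 + θ 0 ^ 2 - γ * (θ 1 + θ 0) with hω
  have hinv : ∀ j, j + 1 ≤ d →
      θ (j + 1) ^ 2 - β * θ (j + 1) * θ j + θ j ^ 2 - γ * (θ (j + 1) + θ j) = ω := by
    intro j
    induction j with
    | zero => intro _; rfl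
    | succ j ih =>
      intro hj
      have h1 := ih (by omega)
      have h2 := hrec (j + 1) (by omega) hj
      rw [Nat.add_sub_cancel] at h2
      linear_combination h1 + (θ (j + 1 + 1) - θ j) * h2
  -- the constants
  set c : K := θ 0 - θ d with hc
  have hc0 : c ≠ 0 := hne 0 d (by omega) le_rfl (by omega)
  set a : K := θ 1 - θ (d - 1) with ha
  set b : K := c * θ 1 - a * θ 0 with hb
  have hbd : b = c * θ (d - 1) - a * θ d := by rw [hb, ha, hc]; ring
  set P := Φ β γ ω c a b with hP
  -- the values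
  have hval : ∀ j ≤ d, ∃ p r : K, (j = d → p = 0) ∧ (j = 0 → r = 0) ∧ ∀ f : K[X],
      (P f).eval (θ j) = p * (f.eval (θ (j + 1)) - f.eval (θ j)) +
        r * (f.eval (θ (j - 1)) - f.eval (θ j)) := by
    intro j hj
    rcases Nat.eq_zero_or_pos j with rfl | hj0
    · -- the first point
      have h10 : θ 1 - θ 0 ≠ 0 := hne 1 0 (by omega) (by omega) (by omega)
      refine ⟨c / (θ 1 - θ 0), 0, fun h => by omega, fun _ => rfl, fun f => ?_⟩
      rw [hP]
      refine eval_Φ β γ ω c a b (Or.inl ?_) (Or.inr rfl) ?_ ?_ f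
      · rw [zero_add, hω]; ring
      · field_simp; ring
      · rw [zero_add, hb]; field_simp; ring
    · rcases hj.eq_or_lt with rfl | hjd
      · -- the last point
        have h10 : θ (j - 1) - θ j ≠ 0 := hne (j - 1) j (by omega) (by omega) (by omega)
        refine ⟨0, c / (θ (j - 1) - θ j), fun _ => rfl, fun h => by omega, fun f => ?_⟩
        rw [hP]
        refine eval_Φ β γ ω c a b (Or.inr rfl) (Or.inl ?_) ?_ ?_ f
        · have h1 := hinv (j - 1) (by omega)
          rw [Nat.sub_add_cancel hj0] at h1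
          rw [← h1]; ring
        · field_simp; ring
        · rw [hbd]; field_simp; ring
      · -- the interior points
        have h1 : θ (j - 1) - θ j ≠ 0 := hne _ _ (by omega) (by omega) (by omega)
        have h2 : θ (j + 1) - θ j ≠ 0 := hne _ _ (by omega) (by omega) (by omega)
        have h3 : θ (j + 1) - θ (j - 1) ≠ 0 := hne _ _ (by omega) (by omega) (by omega)
        set u : K := (a * θ j + b - c * θ (j - 1)) / (θ (j + 1) - θ (j - 1)) with hu
        have hu' : u * (θ (j + 1) - θ (j - 1)) = a * θ j + b - c * θ (j - 1) := by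
          rw [hu, div_mul_cancel₀ _ h3]
        refine ⟨u / (θ (j + 1) - θ j), (c - u) / (θ (j - 1) - θ j), fun h => by omega,
          fun h => by omega, fun f => ?_⟩
        rw [hP]
        refine eval_Φ β γ ω c a b (Or.inl ?_) (Or.inl ?_) ?_ ?_ f
        · have h4 := hinv j (by omega)
          rw [← h4]; ring
        · have h4 := hinv (j - 1) (by omega)
          rw [Nat.sub_add_cancel hj0] at h4
          rw [← h4]; ring
        · rw [div_mul_cancel₀ _ h2, div_mul_cancel₀ _ h1]; ring
        · rw [div_mul_cancel₀ _ h2, div_mul_cancel₀ _ h1]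
          linear_combination hu'
  -- the map on the space
  have hmap : ∀ f ∈ V K d, P f ∈ V K d := by
    intro f hf
    have h1 : f.natDegree ≤ d := natDegree_le_iff_degree_le.2 (mem_degreeLE.1 hf)
    exact mem_V ((natDegree_Φ_le β γ ω c a b h1).trans (Nat.sub_le _ _))
  have hPone : P 1 = 0 := by
    rw [← pow_zero (X : K[X]), hP, Φ_X_pow, T, range_zero, sum_empty]
  refine ⟨P.restrict hmap, ?_, ⟨?_, ?_, ?_, ?_⟩⟩
  · intro h0
    have hX : (X : K[X]) ∈ V K d := mem_V (by rw [natDegree_X]; exact hd)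
    have h1 : ((P.restrict hmap ⟨X, hX⟩ : V K d) : K[X]) = 0 := by rw [h0]; rfl
    rw [LinearMap.coe_restrict_apply] at h1
    have h2 : P X = C c := by
      rw [← pow_one (X : K[X]), hP, Φ_X_pow, T, sum_range_one]
      simp [S]
    rw [h2] at h1
    exact hc0 (C_eq_zero.1 h1)
  · apply Subtype.ext
    rw [LinearMap.coe_restrict_apply]
    change P (tau θ 0) = 0
    rw [tau, range_zero, prod_empty, hPone]
  · apply Subtype.ext
    rw [LinearMap.coe_restrict_apply]
    change P (rho θ d 0) = 0
    rw [rho, range_zero, prod_empty, hPone]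
  · intro i hi
    rw [Submodule.mem_span_singleton]
    have h1 : (P (tau θ (i + 1))).natDegree ≤ i := by
      have := natDegree_Φ_le β γ ω c a b (f := tau θ (i + 1)) (n := i + 1) (by
        rw [tau, natDegree_prod_le])
      simpa using this
    have hvan : ∀ k < i + 1, (tau θ (i + 1)).eval (θ k) = 0 := by
      intro k hk
      rw [tau, eval_prod, prod_eq_zero (mem_range.2 hk)]
      simp
    have h2 := eq_C_mul_prod (x := θ) h1
      (fun k hk l hl hkl => hθ k l (by omega) (by omega) hkl) (by
        intro k hk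
        obtain ⟨p, r, _, _, hpr⟩ := hval k (by omega)
        rw [hpr, hvan (k + 1) (by omega), hvan k (by omega), hvan (k - 1) (by omega)]
        ring)
    refine ⟨(P (tau θ (i + 1))).coeff i, ?_⟩
    apply Subtype.ext
    rw [LinearMap.coe_restrict_apply]
    change (P (tau θ (i + 1))).coeff i • tau θ i = P (tau θ (i + 1))
    rw [smul_eq_C_mul]
    exact h2.symm
  · intro i hi
    rw [Submodule.mem_span_singleton]
    have h1 : (P (rho θ d (i + 1))).natDegree ≤ i := by
      have := natDegree_Φ_le β γ ω c a b (f := rho θ d (i + 1)) (n := i + 1) (by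
        rw [rho, natDegree_prod_le fun h => θ (d - h)])
      simpa using this
    have hvan : ∀ k < i + 1, (rho θ d (i + 1)).eval (θ (d - k)) = 0 := by
      intro k hk
      rw [rho, eval_prod, prod_eq_zero (mem_range.2 hk)]
      simp
    have h2 := eq_C_mul_prod (x := fun h => θ (d - h)) h1
      (fun k hk l hl hkl => by
        have := hθ (d - k) (d - l) (by omega) (by omega) hkl
        omega) (by
        intro k hk
        obtain ⟨p, r, hp, _, hpr⟩ := hval (d - k) (by omega)
        rw [hpr, hvan k (by omega)]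
        have e1 : d - k - 1 = d - (k + 1) := by omega
        rw [e1, hvan (k + 1) (by omega)]
        rcases Nat.eq_zero_or_pos k with rfl | hk0
        · rw [hp (by omega)]; ring
        · have e2 : d - k + 1 = d - (k - 1) := by omega
          rw [e2, hvan (k - 1) (by omega)]
          ring)
    refine ⟨(P (rho θ d (i + 1))).coeff i, ?_⟩
    apply Subtype.ext
    rw [LinearMap.coe_restrict_apply]
    change (P (rho θ d (i + 1))).coeff i • rho θ d i = P (rho θ d (i + 1))
    rw [smul_eq_C_mul]
    exact h2.symm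

end Pool.Agent.Results.MP_87e037_al.LoweringMap
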